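import Pool.Agent.H46.TS.TZ

/-!
Sinnott non vanishing theorem for characters of both parities (adaptation of Pool/Agent/H46/TS, helper78; no row):
`χ (-1) = ε`, `c (-a) = - ε c a`, `ε = 1` or `ε = -1`.
-/

set_option autoImplicit false

namespace H78H

open Finset H5SW H46TS

/-- `ε` is a sign -/
def Sgn {Ω : Type*} [Field Ω] (ε : Ωˣ) : Prop := ε = 1 ∨ ε = -1

lemma Sgn.sq {Ω : Type*} [Field Ω] {ε : Ωˣ} (h : Sgn ε) : (ε : Ω) * ε = 1 := by
  rcases h with rfl | rfl <;> simp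

lemma Sgn.pow {Ω : Type*} [Field Ω] {ε : Ωˣ} (h : Sgn ε) {q : ℕ} (hq : Odd q) : ε ^ q = ε := by
  rcases h with rfl | rfl
  · exact one_pow q
  · exact hq.neg_one_pow

lemma Sgn.pow' {Ω : Type*} [Field Ω] {ε : Ωˣ} (h : Sgn ε) {q : ℕ} (hq : Odd q) : (ε : Ω) ^ q = ε := by
  rw [← Units.val_pow_eq_pow_val, h.pow hq]

/-- `c` has parity `- ε`, is non zero and has values in the field with `l ^ s0` elements -/
structure Goode (l s0 : ℕ) {Ω : Type*} [Field Ω] (ε : Ωˣ) {M : ℕ} (c : ZMod M → Ω) : Prop where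
  par : ∀ a, c (-a) = - (ε : Ω) * c a
  zero : c 0 = 0
  fro : ∀ a, c a ^ (l ^ s0) = c a
  ne : ∃ a, c a ≠ 0

/-- non vanishing from level `k0` on -/
def NVe (l p M s0 k0 : ℕ) [Fact p.Prime] : Prop :=
  ∀ k ≥ k0, ∀ (Ω : Type) [Field Ω] [CharP Ω l] (z : Ω), IsPrimitiveRoot z (p ^ (k + 1)) →
    ∀ ε : Ωˣ, Sgn ε → ∀ c : ZMod M → Ω, Goode l s0 ε c →
      ∀ χ : (ZMod (p ^ (k + 1)))ˣ →* Ωˣ, χ (-1) = ε → H5SW.Prim χ → Tc c χ z ≠ 0

theorem Fc_inve {Ω : Type*} [Field Ω] {M : ℕ} [NeZero M] {ε : Ωˣ} {c : ZMod M → Ω}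
    (hodd : ∀ a, c (-a) = - (ε : Ω) * c a)
    (h0 : c 0 = 0) {x : Ω} (hx : x ≠ 0) : Fc c x⁻¹ = ε * Fc c x := by
  unfold Fc
  by_cases hM : x ^ M = 1
  · rw [inv_pow, hM, inv_one, sub_self, div_zero, div_zero, mul_zero]
  have hxM : x ^ M ≠ 0 := pow_ne_zero _ hx
  have h1 : (1 : Ω) - x ^ M ≠ 0 := fun h => hM (sub_eq_zero.1 h).symm
  have h2 : (1 : Ω) - (x⁻¹) ^ M ≠ 0 := by
    rw [inv_pow]
    intro h
    apply hM
    have h3 : (x ^ M)⁻¹ = 1 := (sub_eq_zero.1 h).symm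
    exact inv_eq_one.1 h3
  rw [← mul_div_assoc, div_eq_div_iff h2 h1]
  obtain ⟨K, hK⟩ : ∃ K, M = K + 1 := Nat.exists_eq_succ_of_ne_zero (NeZero.ne M)
  have hsum : (∑ n ∈ range M, c (n : ZMod M) * x⁻¹ ^ n) * x ^ M = - (ε : Ω) * ∑ n ∈ range M, c (n : ZMod M) * x ^ n := by
    have e1 : ∀ g : ℕ → Ω, g 0 = 0 → ∑ n ∈ range M, g n = ∑ n ∈ range K, g (n + 1) := by
      intro g hg
      rw [hK, Finset.sum_range_succ', hg, add_zero]
    rw [e1 (fun n => c (n : ZMod M) * x⁻¹ ^ n) (by simp [h0]), e1 (fun n => c (n : ZMod M) * x ^ n) (by simp [h0]),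
      ← Finset.sum_range_reflect, sum_mul, mul_sum]
    refine sum_congr rfl fun n hn => ?_
    have hnK := mem_range.1 hn
    have e2 : ((K - 1 - n + 1 : ℕ) : ZMod M) = - ((n + 1 : ℕ) : ZMod M) := by
      rw [eq_neg_iff_add_eq_zero, ← Nat.cast_add]
      have e3 : K - 1 - n + 1 + (n + 1) = M := by omega
      rw [e3, ZMod.natCast_self]
    have e4 : x⁻¹ ^ (K - 1 - n + 1) * x ^ M = x ^ (n + 1) := by
      have e5 : M = (K - 1 - n + 1) + (n + 1) := by omega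
      rw [e5, pow_add x, ← mul_assoc, ← mul_pow, inv_mul_cancel₀ hx, one_pow, one_mul]
    show c _ * _ * _ = - (ε : Ω) * (c _ * _)
    rw [e2, hodd, mul_assoc, e4, mul_assoc]
  have h5 : (1 - x⁻¹ ^ M) * x ^ M = x ^ M - 1 := by
    rw [sub_mul, one_mul, inv_pow, inv_mul_cancel₀ hxM]
  apply mul_right_cancel₀ hxM
  calc (∑ n ∈ range M, c (n : ZMod M) * x⁻¹ ^ n) * (1 - x ^ M) * x ^ M
      = ((∑ n ∈ range M, c (n : ZMod M) * x⁻¹ ^ n) * x ^ M) * (1 - x ^ M) := by ring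
    _ = (ε : Ω) * (∑ n ∈ range M, c (n : ZMod M) * x ^ n) * (x ^ M - 1) := by rw [hsum]; ring
    _ = (ε : Ω) * (∑ n ∈ range M, c (n : ZMod M) * x ^ n) * ((1 - x⁻¹ ^ M) * x ^ M) := by rw [h5]
    _ = _ := by ring

theorem Z_neg {Ω : Type*} [Field Ω] {f : ℕ} [NeZero f] {z : Ω} (hz : z ^ f = 1) {F : Ω → Ω} {ε : Ωˣ}
    (hf1 : ∀ x, x ≠ 0 → F x⁻¹ = ε * F x) (u : ZMod f) :
    F (z ^ (-u).val) = ε * F (z ^ u.val) := by
  have hf0 : f ≠ 0 := NeZero.ne f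
  have hz0 : z ≠ 0 := by
    rintro rfl
    rw [zero_pow hf0] at hz
    exact zero_ne_one hz
  by_cases hu : u = 0
  · subst hu
    have h1 := hf1 1 one_ne_zero
    rw [inv_one] at h1
    rw [neg_zero, ZMod.val_zero, pow_zero]
    exact h1
  · have h1 : z ^ (-u).val = (z ^ u.val)⁻¹ := by
      rw [ZMod.neg_val, if_neg hu]
      have h2 := u.val_lt
      apply eq_inv_of_mul_eq_one_left
      rw [← pow_add, Nat.sub_add_cancel h2.le, hz]
    rw [h1]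
    exact hf1 _ (pow_ne_zero _ hz0)

theorem step {Ω : Type*} [Field Ω] {l : ℕ} [Fact l.Prime] [CharP Ω l] {f s : ℕ} [NeZero f] (hf : Odd f) (hl2 : l ≠ 2)
    (hlf : Nat.Coprime l f) (h1f : 1 < f) {z : Ω} (hz : z ^ f = 1) {F : Ω → Ω} {ε : Ωˣ} (hε : Sgn ε)
    (hf1 : ∀ x, x ≠ 0 → F x⁻¹ = ε * F x) (hf2 : ∀ (i : ℕ) (x : Ω), F x ^ ((l ^ s) ^ i) = F (x ^ ((l ^ s) ^ i)))
    (χ : (ZMod f)ˣ →* Ωˣ) (hev : χ (-1) = ε)
    (h0 : ∑ u ∈ Hf f, (χ u : Ω) * F (z ^ (u : ZMod f).val) = 0) (j : ℕ) :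
    ∑ v ∈ Hf f, (χ v : Ω) ^ ((l ^ s) ^ j) * F (z ^ (v : ZMod f).val) = 0 := by
  classical
  have hl : l.Prime := Fact.out
  have hcop : Nat.Coprime ((l ^ s) ^ j) f := by
    rw [← pow_mul]
    exact Nat.Coprime.pow_left _ hlf
  obtain ⟨Q, hQ⟩ : ∃ Q : (ZMod f)ˣ, (Q : ZMod f) = (((l ^ s) ^ j : ℕ) : ZMod f) :=
    ⟨ZMod.unitOfCoprime _ hcop, rfl⟩
  have hA := isHalf_Hf hf h1f
  have hB := isHalf_smul hA Q
  have hqo : Odd ((l ^ s) ^ j) := by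
    rw [← pow_mul]
    exact (hl.odd_of_ne_two hl2).pow
  have hev2 : ∀ v : (ZMod f)ˣ, χ (-v) = ε * χ v := by
    intro v
    rw [show -v = (-1) * v by rw [neg_one_mul], map_mul, hev]
  have hsum := sum_half hA hB (fun v => (χ (Q⁻¹ * v) : Ω) ^ ((l ^ s) ^ j) * F (z ^ (v : ZMod f).val))
    (by
      intro v
      rw [mul_neg, hev2, Units.val_neg, Z_neg hz hf1, Units.val_mul, mul_pow, hε.pow' hqo]
      linear_combination ((χ (Q⁻¹ * v) : Ω) ^ ((l ^ s) ^ j) * F (z ^ (v : ZMod f).val)) * hε.sq)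
  rw [sum_image (by
    intro a _ b _ hab
    exact mul_left_cancel hab)] at hsum
  have hpow : (∑ u ∈ Hf f, (χ u : Ω) * F (z ^ (u : ZMod f).val)) ^ (l ^ (s * j)) = 0 := by
    rw [h0]
    exact zero_pow (pow_ne_zero _ hl.ne_zero)
  rw [sum_pow_char_pow] at hpow
  have hr : ∑ u ∈ Hf f, (χ (Q⁻¹ * (Q * u)) : Ω) ^ ((l ^ s) ^ j) *
      F (z ^ ((Q * u : (ZMod f)ˣ) : ZMod f).val) = 0 := by
    rw [← hpow]
    refine sum_congr rfl (fun u _ => ?_)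
    rw [inv_mul_cancel_left, mul_pow, pow_mul l s j, hf2, Units.val_mul, hQ, TD_Z_mul hz]
  rw [hr] at hsum
  have hfac : ∑ v ∈ Hf f, (χ (Q⁻¹ * v) : Ω) ^ ((l ^ s) ^ j) * F (z ^ (v : ZMod f).val)
      = (χ Q⁻¹ : Ω) ^ ((l ^ s) ^ j) *
        ∑ v ∈ Hf f, (χ v : Ω) ^ ((l ^ s) ^ j) * F (z ^ (v : ZMod f).val) := by
    rw [mul_sum]
    refine sum_congr rfl (fun v _ => ?_)
    rw [map_mul, Units.val_mul, mul_pow]
    ring
  rw [hfac] at hsum
  rcases mul_eq_zero.1 hsum with h | h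
  · exact absurd h (pow_ne_zero _ (Units.ne_zero _))
  · exact h

open Classical in
theorem av2 {Ω : Type*} [Field Ω] {l p k e s : ℕ} [Fact l.Prime] [CharP Ω l] [Fact p.Prime] (hp2 : p ≠ 2) (hl2 : l ≠ 2)
    (hlp : l ≠ p) (hQ : QD l p e s) (hek : e ≤ k) {z : Ω} (hz : z ^ (p ^ (k + 1)) = 1) {f : Ω → Ω}
    {ε : Ωˣ} (hε : Sgn ε) (hf1 : ∀ x, x ≠ 0 → f x⁻¹ = ε * f x) (hf2 : ∀ (i : ℕ) (x : Ω), f x ^ ((l ^ s) ^ i) = f (x ^ ((l ^ s) ^ i)))
    (χ : (ZMod (p ^ (k + 1)))ˣ →* Ωˣ) (hev : χ (-1) = ε)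
    (h0 : ∑ u ∈ Hf (p ^ (k + 1)), (χ u : Ω) * f (z ^ (u : ZMod (p ^ (k + 1))).val) = 0)
    (a : (ZMod (p ^ (k + 1)))ˣ) :
    ∑ u ∈ (Hf (p ^ (k + 1))).filter (fun u => χ (u * a⁻¹) ^ (l ^ s) = χ (u * a⁻¹)),
      (χ (u * a⁻¹) : Ω) * f (z ^ (u : ZMod (p ^ (k + 1))).val) = 0 := by
  have hp : p.Prime := Fact.out
  have hl : l.Prime := Fact.out
  have hodd : Odd (p ^ (k + 1)) := (hp.odd_of_ne_two hp2).pow
  have hlf : Nat.Coprime l (p ^ (k + 1)) := by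
    apply Nat.Coprime.pow_right
    rw [Nat.coprime_primes hl hp]
    exact hlp
  have h1f : 1 < p ^ (k + 1) := Nat.one_lt_pow (by omega) hp.one_lt
  have hstep : ∀ j : ℕ, ∑ v ∈ Hf (p ^ (k + 1)), (χ (v * a⁻¹) : Ω) ^ ((l ^ s) ^ j) *
      f (z ^ (v : ZMod (p ^ (k + 1))).val) = 0 := by
    intro j
    have h2 : ∑ v ∈ Hf (p ^ (k + 1)), (χ (v * a⁻¹) : Ω) ^ ((l ^ s) ^ j) *
        f (z ^ (v : ZMod (p ^ (k + 1))).val) = (χ a⁻¹ : Ω) ^ ((l ^ s) ^ j) *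
        ∑ v ∈ Hf (p ^ (k + 1)), (χ v : Ω) ^ ((l ^ s) ^ j) * f (z ^ (v : ZMod (p ^ (k + 1))).val) := by
      rw [mul_sum]
      refine sum_congr rfl (fun v _ => ?_)
      rw [map_mul, Units.val_mul, mul_pow]
      ring
    rw [h2, step hodd hl2 hlf h1f hz hε hf1 hf2 χ hev h0 j, mul_zero]
  have hsum : ∑ j ∈ range (p ^ (k + 1 - e)), ∑ v ∈ Hf (p ^ (k + 1)), (χ (v * a⁻¹) : Ω) ^ ((l ^ s) ^ j) *
      f (z ^ (v : ZMod (p ^ (k + 1))).val) = 0 := sum_eq_zero (fun j _ => hstep j)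
  rw [sum_comm] at hsum
  have hJ : ((p ^ (k + 1 - e) : ℕ) : Ω) ≠ 0 := cast_ne hlp (k + 1 - e) Ω
  rw [sum_filter]
  refine (mul_eq_zero.1 ?_).resolve_left hJ
  rw [mul_sum]
  refine Eq.trans ?_ hsum
  refine sum_congr rfl (fun v _ => ?_)
  have hy : ((χ (v * a⁻¹) : Ωˣ) : Ω) ^ ((p - 1) * p ^ k) = 1 := by
    have h3 : (v * a⁻¹) ^ ((p - 1) * p ^ k) = 1 := by
      have h4 : Fintype.card (ZMod (p ^ (k + 1)))ˣ = (p - 1) * p ^ k := by
        rw [ZMod.card_units_eq_totient, Nat.totient_prime_pow hp (Nat.succ_pos k), Nat.succ_sub_one]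
        ring
      rw [← h4]
      exact pow_card_eq_one
    rw [← Units.val_pow_eq_pow_val, ← map_pow, h3, map_one, Units.val_one]
  rw [← sum_mul, av1 hp2 hlp hQ hek hy]
  by_cases h5 : χ (v * a⁻¹) ^ (l ^ s) = χ (v * a⁻¹)
  · have h6 : ((χ (v * a⁻¹) : Ωˣ) : Ω) ^ (l ^ s) = χ (v * a⁻¹) := by
      rw [← Units.val_pow_eq_pow_val, h5]
    rw [if_pos h5, if_pos h6]
    ring
  · have h6 : ¬ ((χ (v * a⁻¹) : Ωˣ) : Ω) ^ (l ^ s) = χ (v * a⁻¹) := by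
      intro h7
      apply h5
      apply Units.ext
      rw [Units.val_pow_eq_pow_val, h7]
    rw [if_neg h5, if_neg h6, zero_mul, mul_zero]

open Classical in
theorem cosets {Ω : Type*} [Field Ω] {l p k e s : ℕ} [Fact l.Prime] [CharP Ω l] [Fact p.Prime] (hp2 : p ≠ 2)
    (hl2 : l ≠ 2) {ε : Ωˣ} (hε : Sgn ε) (hQ : QD l p e s) (hek : 2 * e ≤ k + 1) {E : Finset ℤ_[p]ˣ} (hE : EH p E)
    (χ : (ZMod (p ^ (k + 1)))ˣ →* Ωˣ) (hev : χ (-1) = ε) (hχ : Prim χ) (a u1 : (ZMod (p ^ (k + 1)))ˣ)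
    (hu1 : (u1 : ZMod (p ^ (k + 1))) = 1 + (p : ZMod (p ^ (k + 1))) ^ (k + 1 - e))
    (h : (ZMod (p ^ (k + 1)))ˣ → Ω) (hh : ∀ u, h (-u) = h u) :
    ∑ u ∈ (Hf (p ^ (k + 1))).filter (fun u => χ (u * a⁻¹) ^ (l ^ s) = χ (u * a⁻¹)), h u =
      ∑ x ∈ E, ∑ t ∈ range (p ^ e), h (a * red (k + 1) x * u1 ^ t) := by
  have hl : l.Prime := Fact.out
  have hp : p.Prime := Fact.out
  have he := hQ.e1
  have hk : 1 ≤ k := by omega
  have hodd : Odd (p ^ (k + 1)) := (hp.odd_of_ne_two hp2).pow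
  have hone : 1 < p ^ (k + 1) := Nat.one_lt_pow (Nat.succ_ne_zero k) hp.one_lt
  have hHf := isHalf_Hf hodd hone
  -- roots agreeing after reduction
  have key : ∀ x y : ℤ_[p]ˣ, x ^ (p - 1) = 1 → y ^ (p - 1) = 1 → ∀ t t' : ℕ,
      red (k + 1) x * u1 ^ t = red (k + 1) y * u1 ^ t' → x = y := by
    intro x y hx hy t t' hxy
    apply teich_unique hx hy
    rw [← S3_r_red k x, ← S3_r_red k y]
    have h2 := congrArg (S3_r p k) hxy
    rw [map_mul, map_mul, map_pow, map_pow, S3_u1r he hek u1 hu1, one_pow, one_pow, mul_one, mul_one] at h2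
    rw [h2]
  have hneg : ∀ x : ℤ_[p]ˣ, x ^ (p - 1) = 1 → (-x) ^ (p - 1) = 1 := by
    intro x hx
    have hev' : Even (p - 1) := by
      obtain ⟨m, hm⟩ := hp.odd_of_ne_two hp2
      exact ⟨m, by omega⟩
    rw [hev'.neg_pow, hx]
  have hredneg : ∀ x : ℤ_[p]ˣ, red (k + 1) (-x) = - red (k + 1) x := by
    intro x
    rw [← Units.val_inj]
    show PadicInt.toZModPow (k + 1) ((-x : ℤ_[p]ˣ) : ℤ_[p]) = - PadicInt.toZModPow (k + 1) (x : ℤ_[p])
    rw [Units.val_neg, map_neg]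
  have hχu1 : ∀ t : ℕ, χ (u1 ^ t) ^ (l ^ s - 1) = 1 := by
    intro t
    obtain ⟨c, hc⟩ := hQ.dvd
    rw [← map_pow, ← pow_mul, mul_comm t, pow_mul, hc, pow_mul, S3_u1ord hek u1 hu1, one_pow, one_pow, map_one]
  -- the image set
  set A' : Finset (ZMod (p ^ (k + 1)))ˣ := (E ×ˢ range (p ^ e)).image (fun q => a * red (k + 1) q.1 * u1 ^ q.2) with hA'
  have hsum : ∑ x ∈ E, ∑ t ∈ range (p ^ e), h (a * red (k + 1) x * u1 ^ t) = ∑ u ∈ A', h u := by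
    rw [hA', Finset.sum_image, Finset.sum_product]
    rintro ⟨x, t⟩ hx ⟨y, t'⟩ hy hxy
    simp only [coe_product, Set.mem_prod, mem_coe, mem_range] at hx hy
    simp only at hxy
    rw [mul_assoc, mul_assoc, mul_right_inj] at hxy
    have hxy1 := key x y (hE.root x hx.1) (hE.root y hy.1) t t' hxy
    subst hxy1
    rw [mul_right_inj] at hxy
    rw [S3_u1inj hek u1 hu1 hx.2 hy.2 hxy]
  rw [hsum]
  apply S3_sum _ _ _ _ h hh
  · intro u hu
    rw [mem_filter] at hu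
    obtain ⟨x, hx, t, ht, hxt⟩ := TE_struct hp2 hQ hek χ hχ u1 hu1 (u * a⁻¹) hu.2
    have hu' : u = a * red (k + 1) x * u1 ^ t := by
      rw [mul_assoc, ← hxt, mul_comm u, mul_inv_cancel_left]
    rcases hE.cov x hx with hxE | hxE
    · left
      rw [hA', mem_image]
      exact ⟨(x, t), by simp [hxE, ht], hu'.symm⟩
    · right
      rw [hA', mem_image]
      refine ⟨(-x, t), by simp [hxE, ht], ?_⟩
      simp only
      rw [hredneg, hu', mul_neg, neg_mul]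
  · intro u hu
    rw [hA', mem_image] at hu
    obtain ⟨⟨x, t⟩, hxt, rfl⟩ := hu
    simp only [mem_product, mem_range] at hxt
    have hredx : (red (k + 1) x) ^ (p - 1) = 1 := by rw [← map_pow, hE.root x hxt.1, map_one]
    have hin : χ (a * red (k + 1) x * u1 ^ t * a⁻¹) ^ (l ^ s) = χ (a * red (k + 1) x * u1 ^ t * a⁻¹) := by
      have h1 : a * red (k + 1) x * u1 ^ t * a⁻¹ = red (k + 1) x * u1 ^ t := by
        rw [mul_comm _ a⁻¹, mul_assoc a, inv_mul_cancel_left]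
      rw [h1, TE_iff hl, map_mul, mul_pow, TE_chired hQ χ _ hredx, hχu1, one_mul]
    by_cases hH : a * red (k + 1) x * u1 ^ t ∈ Hf (p ^ (k + 1))
    · left
      rw [mem_filter]
      exact ⟨hH, hin⟩
    · right
      rw [mem_filter]
      refine ⟨?_, ?_⟩
      · by_contra hc
        exact hH ((hHf _).2 hc)
      · have h1 : χ (-(a * red (k + 1) x * u1 ^ t) * a⁻¹) = ε * χ (a * red (k + 1) x * u1 ^ t * a⁻¹) := by
          rw [neg_mul, ← neg_one_mul, map_mul, hev]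
        rw [h1, mul_pow, hin, hε.pow ((hl.odd_of_ne_two hl2).pow)]
  · intro u hu hu2
    rw [mem_filter] at hu hu2
    exact (hHf u).1 hu.1 hu2.1
  · intro u hu hu2
    rw [hA', mem_image] at hu hu2
    obtain ⟨⟨x, t⟩, hxt, rfl⟩ := hu
    obtain ⟨⟨y, t'⟩, hyt, hy⟩ := hu2
    simp only [mem_product, mem_range] at hxt hyt hy
    have h1 : red (k + 1) y * u1 ^ t' = red (k + 1) (-x) * u1 ^ t := by
      rw [hredneg, neg_mul]
      have : a * (red (k + 1) y * u1 ^ t') = a * (-(red (k + 1) x * u1 ^ t)) := by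
        rw [← mul_assoc, hy, mul_neg, mul_assoc]
      exact mul_left_cancel this
    have h2 := key y (-x) (hE.root y hyt.1) (hneg x (hE.root x hxt.1)) t' t h1
    exact hE.neg x hxt.1 (h2 ▸ hyt.1)

theorem rel {l p k e s : ℕ} [Fact l.Prime] [Fact p.Prime] (hp2 : p ≠ 2) (hl2 : l ≠ 2) (hlp : l ≠ p) (hQ : QD l p e s)
    (hek : 2 * e ≤ k + 1) (hek' : e ≤ k) {E : Finset ℤ_[p]ˣ} (hE : EH p E) {Ω : Type} [Field Ω] [CharP Ω l]
    {z : Ω} (hz : IsPrimitiveRoot z (p ^ (k + 1))) {f : Ω → Ω} {ε : Ωˣ} (hε : Sgn ε)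
    (hf1 : ∀ x, x ≠ 0 → f x⁻¹ = ε * f x)
    (hf2 : ∀ (i : ℕ) (x : Ω), f x ^ ((l ^ s) ^ i) = f (x ^ ((l ^ s) ^ i)))
    (χ : (ZMod (p ^ (k + 1)))ˣ →* Ωˣ) (hev : χ (-1) = ε) (hprim : Prim χ)
    (h0 : ∑ u ∈ Hf (p ^ (k + 1)), (χ u : Ω) * f (z ^ (u : ZMod (p ^ (k + 1))).val) = 0) :
    ∃ ρ : Ω, ρ ^ (p ^ e) = 1 ∧
      ∀ b : ℕ, ∑ x ∈ E, (χ (red (k + 1) x) : Ω) * ∑ t ∈ range (p ^ e),
          ρ ^ t * f (z ^ ((1 + p ^ e * b) * (1 + p ^ (k + 1 - e) * t) *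
            (PadicInt.toZModPow (k + 1) (x : ℤ_[p])).val)) = 0 := by
  classical
  have he1 := hQ.e1
  have hz1 : z ^ (p ^ (k + 1)) = 1 := hz.pow_eq_one
  have hzne : z ≠ 0 := by
    rintro rfl
    rw [zero_pow (pow_ne_zero _ (Nat.Prime.ne_zero Fact.out))] at hz1
    exact zero_ne_one hz1
  have hzf : (p : ZMod (p ^ (k + 1))) ^ (k + 1) = 0 := by
    have := ZMod.natCast_self (p ^ (k + 1))
    rwa [Nat.cast_pow] at this
  obtain ⟨u1, hu1⟩ := TF_unit (p := p) (k := k) (m := p ^ (k + 1 - e)) (dvd_pow_self p (by omega))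
  have hu1' : (u1 : ZMod (p ^ (k + 1))) = 1 + (p : ZMod (p ^ (k + 1))) ^ (k + 1 - e) := by
    rw [hu1]
    push_cast
    ring
  have hpow := TF_pow hek u1 hu1'
  have hone : u1 ^ (p ^ e) = 1 := by
    apply Units.ext
    rw [hpow, Nat.cast_pow, ← pow_add, show k + 1 - e + e = k + 1 by omega, hzf, add_zero,
      Units.val_one]
  refine ⟨(χ u1 : Ω), ?_, fun b => ?_⟩
  · rw [← Units.val_pow_eq_pow_val, ← map_pow, hone, map_one, Units.val_one]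
  · obtain ⟨a, ha⟩ := TF_unit (p := p) (k := k) (m := p ^ e * b)
      ((dvd_pow_self p (by omega)).trans (dvd_mul_right _ _))
    have h1 := av2 hp2 hl2 hlp hQ hek' hz1 hε hf1 hf2 χ hev h0 a
    have hneg : ∀ u : (ZMod (p ^ (k + 1)))ˣ,
        (χ (-u * a⁻¹) : Ω) * f (z ^ ((-u : (ZMod (p ^ (k + 1)))ˣ) : ZMod (p ^ (k + 1))).val) =
          (χ (u * a⁻¹) : Ω) * f (z ^ (u : ZMod (p ^ (k + 1))).val) := by
      intro u
      have e1 : χ (-u * a⁻¹) = ε * χ (u * a⁻¹) := by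
        rw [show -u * a⁻¹ = (-1) * (u * a⁻¹) by simp, map_mul, hev]
      have e2 : z ^ ((-u : (ZMod (p ^ (k + 1)))ˣ) : ZMod (p ^ (k + 1))).val =
          (z ^ (u : ZMod (p ^ (k + 1))).val)⁻¹ := by
        apply eq_inv_of_mul_eq_one_left
        rw [← pow_add, ← TF_val hz1 _ (((-u : (ZMod (p ^ (k + 1)))ˣ) : ZMod (p ^ (k + 1))) +
          (u : ZMod (p ^ (k + 1)))) (by push_cast; rw [ZMod.natCast_zmod_val, ZMod.natCast_zmod_val])]
        rw [Units.val_neg, neg_add_cancel, ZMod.val_zero, pow_zero]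
      rw [e1, e2, hf1 _ (pow_ne_zero _ hzne), Units.val_mul]
      linear_combination ((χ (u * a⁻¹) : Ω) * f (z ^ (u : ZMod (p ^ (k + 1))).val)) * hε.sq
    have h2 := cosets hp2 hl2 hε hQ hek hE χ hev hprim a u1 hu1'
      (fun u => (χ (u * a⁻¹) : Ω) * f (z ^ (u : ZMod (p ^ (k + 1))).val)) hneg
    rw [h1] at h2
    rw [h2]
    refine Finset.sum_congr rfl fun x _ => ?_
    rw [Finset.mul_sum]
    refine Finset.sum_congr rfl fun t _ => ?_
    have e3 : χ (a * red (k + 1) x * u1 ^ t * a⁻¹) = χ (red (k + 1) x) * χ u1 ^ t := by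
      rw [show a * red (k + 1) x * u1 ^ t * a⁻¹ = red (k + 1) x * u1 ^ t by
        rw [mul_assoc a, mul_inv_cancel_comm], map_mul, map_pow]
    have e4 : z ^ ((a * red (k + 1) x * u1 ^ t : (ZMod (p ^ (k + 1)))ˣ) : ZMod (p ^ (k + 1))).val =
        z ^ ((1 + p ^ e * b) * (1 + p ^ (k + 1 - e) * t) *
            (PadicInt.toZModPow (k + 1) (x : ℤ_[p])).val) := by
      apply TF_val hz1
      rw [Units.val_mul, Units.val_mul, hpow, ha]
      push_cast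
      rw [ZMod.natCast_zmod_val]
      show _ * PadicInt.toZModPow (k + 1) (x : ℤ_[p]) * _ = _
      ring
    rw [e3, e4, Units.val_mul, Units.val_pow_eq_pow_val]
    ring

theorem factor_levele {Ω : Type*} [Field Ω] {p n m : ℕ} [Fact p.Prime] (hp2 : p ≠ 2) (hmn : m ≤ n)
    (χ : (ZMod (p ^ (n + 1)))ˣ →* Ωˣ)
    (hm : ∃ u, ZMod.unitsMap (pow_dvd_pow p (Nat.succ_le_succ hmn)) u = 1 ∧ χ u ≠ 1) :
    ∃ k, m < k ∧ ∃ hk : k ≤ n, ∃ χ' : (ZMod (p ^ (k + 1)))ˣ →* Ωˣ,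
      χ = χ'.comp (ZMod.unitsMap (pow_dvd_pow p (Nat.succ_le_succ hk))) ∧ χ' (-1) = χ (-1) ∧ Prim χ' := by
  classical
  have hP : ∃ k, ∃ hk : k ≤ n, ∀ u, ZMod.unitsMap (pow_dvd_pow p (Nat.succ_le_succ hk)) u = 1 →
      χ u = 1 := by
    refine ⟨n, le_refl n, fun u hu => ?_⟩
    have h1 : ZMod.unitsMap (pow_dvd_pow p (Nat.succ_le_succ (le_refl n))) u = u := by
      have := ZMod.unitsMap_self (p ^ (n + 1))
      exact congrArg (fun f => f u) this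
    rw [h1] at hu
    rw [hu, map_one]
  obtain ⟨hk, hker⟩ := Nat.find_spec hP
  set k := Nat.find hP with hkdef
  have hmk : m < k := by
    by_contra hlt
    have hkm : k ≤ m := not_lt.mp hlt
    obtain ⟨u, hu1, hu2⟩ := hm
    apply hu2
    apply hker
    have hc := ZMod.unitsMap_comp (pow_dvd_pow p (Nat.succ_le_succ hkm))
      (pow_dvd_pow p (Nat.succ_le_succ hmn))
    have hc2 := congrArg (fun f => f u) hc
    simp only [MonoidHom.comp_apply] at hc2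
    rw [← hc2, hu1, map_one]
  have hsurj := ZMod.unitsMap_surjective (pow_dvd_pow p (Nat.succ_le_succ hk))
  have hle : (ZMod.unitsMap (pow_dvd_pow p (Nat.succ_le_succ hk))).ker ≤ χ.ker := by
    intro u hu
    exact hker u hu
  let φ := ZMod.unitsMap (pow_dvd_pow p (Nat.succ_le_succ hk))
  let χ' : (ZMod (p ^ (k + 1)))ˣ →* Ωˣ :=
    φ.liftOfRightInverse _ (Function.rightInverse_surjInv hsurj) ⟨χ, hle⟩
  have hχ' : ∀ u, χ' (φ u) = χ u := fun u =>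
    φ.liftOfRightInverse_comp_apply _ (Function.rightInverse_surjInv hsurj) ⟨χ, hle⟩ u
  refine ⟨k, hmk, hk, χ', ?_, ?_, ?_⟩
  · ext u
    simp only [MonoidHom.comp_apply]
    exact congrArg _ (hχ' u).symm
  · have h1 : φ (-1) = -1 := by
      ext
      simp [φ, ZMod.unitsMap_def]
    rw [← h1, hχ']
  · have hk1 : k - 1 < k := by omega
    have hnot := Nat.find_min hP hk1
    have hkn : k - 1 ≤ n := by omega
    have hex : ∃ u, ZMod.unitsMap (pow_dvd_pow p (Nat.succ_le_succ hkn)) u = 1 ∧ χ u ≠ 1 := by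
      by_contra hcon
      push Not at hcon
      exact hnot ⟨hkn, hcon⟩
    obtain ⟨u, hu1, hu2⟩ := hex
    refine ⟨φ u, ?_, by rw [hχ']; exact hu2⟩
    have hkk : k - 1 + 1 = k := by omega
    have hdv : p ^ (k - 1 + 1) ∣ p ^ (k + 1) := pow_dvd_pow p (by omega)
    have hc := ZMod.unitsMap_comp hdv (pow_dvd_pow p (Nat.succ_le_succ hk))
    have hc2 := congrArg (fun f => f u) hc
    simp only [MonoidHom.comp_apply] at hc2
    have h3 : ZMod.unitsMap hdv (φ u) = 1 := hc2.trans hu1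
    set w := φ u with hw
    have hne : NeZero (p ^ (k + 1)) := ⟨pow_ne_zero _ (Fact.out : p.Prime).ne_zero⟩
    have h4 : (((w : ZMod (p ^ (k + 1))).val : ℕ) : ZMod (p ^ (k - 1 + 1))) = ((1 : ℕ) : ZMod _) := by
      have h5 := congrArg (fun x : (ZMod (p ^ (k - 1 + 1)))ˣ => (x : ZMod (p ^ (k - 1 + 1)))) h3
      simp only [ZMod.unitsMap_val, Units.val_one] at h5
      rw [← h5.trans (by simp : (1 : ZMod (p ^ (k - 1 + 1))) = ((1 : ℕ) : ZMod _)), ZMod.natCast_val]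
    rw [ZMod.natCast_eq_natCast_iff, hkk] at h4
    have hp1 : 1 < p ^ k := Nat.one_lt_pow (by omega) (Fact.out : p.Prime).one_lt
    have h6 : (w : ZMod (p ^ (k + 1))).val % p ^ k = 1 := by
      have := h4
      unfold Nat.ModEq at this
      rw [this, Nat.mod_eq_of_lt hp1]
    refine ⟨(w : ZMod (p ^ (k + 1))).val / p ^ k, ?_⟩
    have h7 := Nat.mod_add_div (w : ZMod (p ^ (k + 1))).val (p ^ k)
    rw [h6] at h7
    have h8 := congrArg (fun x : ℕ => (x : ZMod (p ^ (k + 1)))) h7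
    simp only [Nat.cast_add, Nat.cast_one, Nat.cast_mul, Nat.cast_pow, ZMod.natCast_val,
      ZMod.cast_id', id_eq] at h8
    exact h8.symm

theorem sinnotte {l p M s0 : ℕ} [Fact l.Prime] [Fact p.Prime] [NeZero M] (hp2 : p ≠ 2) (hl2 : l ≠ 2) (hlp : l ≠ p)
    (hpM : p.Coprime M) (hs0 : 1 ≤ s0) : ∃ k0 : ℕ, NVe l p M s0 k0 := by
  classical
  have hp : p.Prime := Fact.out
  obtain ⟨e, s, hQ, hs⟩ := exists_QD hlp s0 hs0
  obtain ⟨E, hE⟩ := exists_EH hp2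
  obtain ⟨k0, hk0⟩ := no_relation (l := l) (e := e) hp2 hlp hE (p ^ e * M)
  refine ⟨max (2 * e) k0, ?_⟩
  intro k hk Ω _ _ z hz ε hε c hc χ hev hprim h0
  have hk1 : 2 * e ≤ k := (le_max_left _ _).trans hk
  have hk2 : k0 ≤ k := (le_max_right _ _).trans hk
  have hcs0 : ∀ (j : ℕ) (a : ZMod M), c a ^ (l ^ (s0 * j)) = c a := by
    intro j a
    induction j with
    | zero => simp
    | succ j ih =>
      rw [Nat.mul_succ, pow_add, pow_mul, ih, hc.fro]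
  have hcs : ∀ a, c a ^ (l ^ s) = c a := by
    intro a
    obtain ⟨j, rfl⟩ := hs
    exact hcs0 j a
  obtain ⟨ρ, hρ, hrel⟩ := rel (l := l) hp2 hl2 hlp hQ (by omega) (by omega) hE hz (f := Fc c) hε
    (fun x hx => Fc_inve hc.par hc.zero hx) (fun i x => Fc_frob hcs i x) χ hev hprim h0
  have hpe : 0 < p ^ e := pow_pos hp.pos e
  have hsplit : p ^ (k + 1) = p ^ (k + 1 - e) * p ^ e := by
    rw [← pow_add]; congr 1; omega
  have hω1 : IsPrimitiveRoot (z ^ (p ^ (k + 1 - e))) (p ^ e) := hz.pow (pow_pos hp.pos _) hsplit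
  have hcop := fun x : ℤ_[p]ˣ => SB_cop k x
  have hω : ∀ x : ℤ_[p]ˣ, IsPrimitiveRoot ((z ^ (p ^ (k + 1 - e))) ^
      (PadicInt.toZModPow (k + 1) (x : ℤ_[p])).val) (p ^ e) := fun x =>
    hω1.pow_of_coprime _ (Nat.Coprime.pow_right e (hcop x))
  choose N hN1 hN2 using fun x : ℤ_[p]ˣ => poly (M := M) hpe (Nat.Coprime.pow_left e hpM)
    (cast_ne hlp e Ω) (hω x) hρ hc.ne
  obtain ⟨m, hm, hm2⟩ := hN1 1
  have hbp : ∀ b : ℕ, Nat.Coprime (1 + p ^ e * b) p := by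
    intro b
    have h1 : p ^ e * b = p * (p ^ (e - 1) * b) := by
      rw [← mul_assoc, ← pow_succ']
      congr 2
      have := hQ.e1
      omega
    rw [h1, Nat.coprime_add_mul_left_left]
    exact Nat.coprime_one_left p
  have hne : ∀ (b : ℕ) (x : ℤ_[p]ˣ), (z ^ ((1 + p ^ e * b) *
      (PadicInt.toZModPow (k + 1) (x : ℤ_[p])).val)) ^ (p ^ e * M) ≠ 1 := by
    intro b x h1
    rw [← pow_mul, hz.pow_eq_one_iff_dvd] at h1
    have h2 : Nat.Coprime (p ^ (k + 1)) (((1 + p ^ e * b) *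
        (PadicInt.toZModPow (k + 1) (x : ℤ_[p])).val) * M) :=
      Nat.Coprime.pow_left _ (Nat.Coprime.mul_right
        (Nat.Coprime.symm (Nat.Coprime.mul_left (hbp b) (hcop x))) hpM)
    have h3 : p ^ (k + 1) ∣ (((1 + p ^ e * b) * (PadicInt.toZModPow (k + 1) (x : ℤ_[p])).val) * M) * p ^ e := by
      refine h1.trans (dvd_of_eq ?_)
      ring
    have h4 := h2.dvd_of_dvd_mul_left h3
    have h5 := (Nat.pow_dvd_pow_iff_le_right hp.one_lt).1 h4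
    omega
  refine hk0 k hk2 Ω z hz (fun x m => (χ (red (k + 1) x) : Ω) * N x m)
    ⟨m, hm, mul_ne_zero (Units.ne_zero _) hm2⟩ (fun b => ?_)
  have hY : ∀ x : ℤ_[p]ˣ, ∑ t ∈ range (p ^ e),
          ρ ^ t * Fc c (z ^ ((1 + p ^ e * b) * (1 + p ^ (k + 1 - e) * t) *
            (PadicInt.toZModPow (k + 1) (x : ℤ_[p])).val)) =
      (∑ m ∈ range (p ^ e * M), N x m *
            (z ^ ((1 + p ^ e * b) * (PadicInt.toZModPow (k + 1) (x : ℤ_[p])).val)) ^ m) /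
        (1 - (z ^ ((1 + p ^ e * b) *
            (PadicInt.toZModPow (k + 1) (x : ℤ_[p])).val)) ^ (p ^ e * M)) := by
    intro x
    rw [← hN2 x _ (hne b x)]
    refine sum_congr rfl fun t _ => ?_
    congr 2
    rw [← pow_mul, ← pow_mul, ← pow_add]
    refine SB_pow hz.pow_eq_one ?_
    generalize (PadicInt.toZModPow (k + 1) (x : ℤ_[p])).val = v
    have h5 : (1 + p ^ e * b) * (1 + p ^ (k + 1 - e) * t) * v
        = p ^ (k + 1 - e) * v * t + (1 + p ^ e * b) * v + p ^ (k + 1) * (b * t * v) := by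
      rw [hsplit]
      ring
    rw [h5]
    push_cast
    have h6 : ((p : ZMod (p ^ (k + 1))) ^ (k + 1)) = 0 := by
      have := ZMod.natCast_self (p ^ (k + 1))
      push_cast at this
      exact this
    rw [h6]
    ring
  have h7 := hrel b
  have h8 : (∏ y ∈ E, (1 - (z ^ ((1 + p ^ e * b) *
            (PadicInt.toZModPow (k + 1) (y : ℤ_[p])).val)) ^ (p ^ e * M))) *
      ∑ x ∈ E, (χ (red (k + 1) x) : Ω) * ∑ t ∈ range (p ^ e),
          ρ ^ t * Fc c (z ^ ((1 + p ^ e * b) * (1 + p ^ (k + 1 - e) * t) *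
            (PadicInt.toZModPow (k + 1) (x : ℤ_[p])).val)) = 0 := by
    rw [h7, mul_zero]
  rw [← h8, mul_sum]
  refine sum_congr rfl fun x hx => ?_
  rw [hY x, ← Finset.mul_prod_erase E _ hx]
  have h9 : (1 - (z ^ ((1 + p ^ e * b) *
            (PadicInt.toZModPow (k + 1) (x : ℤ_[p])).val)) ^ (p ^ e * M)) ≠ 0 := by
    intro h
    exact hne b x (sub_eq_zero.1 h).symm
  have h10 : (∑ m ∈ range (p ^ e * M), (χ (red (k + 1) x) : Ω) * N x m *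
            (z ^ ((1 + p ^ e * b) * (PadicInt.toZModPow (k + 1) (x : ℤ_[p])).val)) ^ m) =
      (χ (red (k + 1) x) : Ω) * ∑ m ∈ range (p ^ e * M), N x m *
            (z ^ ((1 + p ^ e * b) * (PadicInt.toZModPow (k + 1) (x : ℤ_[p])).val)) ^ m := by
    rw [mul_sum]
    exact sum_congr rfl fun m _ => mul_assoc _ _ _
  rw [h10]
  generalize ∏ y ∈ E.erase x, (1 - (z ^ ((1 + p ^ e * b) *
            (PadicInt.toZModPow (k + 1) (y : ℤ_[p])).val)) ^ (p ^ e * M)) = V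
  generalize (1 - (z ^ ((1 + p ^ e * b) *
            (PadicInt.toZModPow (k + 1) (x : ℤ_[p])).val)) ^ (p ^ e * M)) = W at h9
  field_simp

end H78H
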