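import Pool.Agent.H78.MG.Fin
import Pool.Agent.H78.MH.Sn

/-!
Block M for characters of both parities (adaptation of Pool/Agent/H78/MG, helper78; no row): no condition for `τ`.
-/

set_option autoImplicit false
open scoped Classical Pointwise

open IsDedekindDomain NumberField Finset H55T3 H78M

namespace H78H

/-- No new elements modulo `l`-th powers. -/
def NoNewE (l p M m n : ℕ) [Fact p.Prime] [NeZero M] (hmn : m ≤ n) (C : Type) [Field C] [NumberField C]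
    [IsCyclotomicExtension {M * p ^ (n + 1)} ℚ C] : Prop :=
  ∀ e : C, e ≠ 0 → (∀ w : HeightOneSpectrum (𝓞 C), (l : ℤ) ∣ WithZero.log (w.valuation C e)) →
    (∃ y, ∏ g ∈ univ.filter (fun g : C ≃ₐ[ℚ] C => InH p M m n hmn g), g e = y ^ l) →
    (∀ g : C ≃ₐ[ℚ] C, kp (M * p ^ (n + 1)) g = -1 → ∃ y, e * g e = y ^ l) → ∃ y, e = y ^ l

/-- No new ideal classes. -/
def NoNewT (l p M m n : ℕ) [Fact p.Prime] [NeZero M] (hmn : m ≤ n) (C : Type) [Field C] [NumberField C]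
    [IsCyclotomicExtension {M * p ^ (n + 1)} ℚ C] : Prop :=
  ∀ T : Subgroup (ClassGroup (𝓞 C)), Stab T →
    (∀ I : Ideal (𝓞 C), I ≠ ⊥ → H55T3.icl I ^ l ∈ T) →
    (∀ I : Ideal (𝓞 C), I ≠ ⊥ →
      ∏ g ∈ univ.filter (fun g : C ≃ₐ[ℚ] C => InH p M m n hmn g), H55T3.icl (g • I) ∈ T) →
    (∀ g : C ≃ₐ[ℚ] C, kp (M * p ^ (n + 1)) g = -1 → ∀ I : Ideal (𝓞 C), I ≠ ⊥ →
      H55T3.icl I * H55T3.icl (g • I) ∈ T) → T = ⊤

/-- joint injectivity -/
private theorem MgSb_inj {M f : ℕ} (h : Nat.Coprime M f) {t t' : (ZMod (M * f))ˣ}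
    (h1 : ZMod.unitsMap (dvd_mul_right M f) t = ZMod.unitsMap (dvd_mul_right M f) t')
    (h2 : ZMod.unitsMap (dvd_mul_left f M) t = ZMod.unitsMap (dvd_mul_left f M) t') : t = t' := by
  have c1 := Subsingleton.elim ((RingHom.fst _ _).comp (ZMod.chineseRemainder h).toRingHom)
    (ZMod.castHom (dvd_mul_right M f) (ZMod M))
  have c2 := Subsingleton.elim ((RingHom.snd _ _).comp (ZMod.chineseRemainder h).toRingHom)
    (ZMod.castHom (dvd_mul_left f M) (ZMod f))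
  have e1 := congrArg Units.val h1
  have e2 := congrArg Units.val h2
  apply Units.ext
  apply (ZMod.chineseRemainder h).injective
  apply Prod.ext
  · have a1 := RingHom.congr_fun c1 (t : ZMod (M * f))
    have a2 := RingHom.congr_fun c1 (t' : ZMod (M * f))
    exact a1.trans (e1.trans a2.symm)
  · have a1 := RingHom.congr_fun c2 (t : ZMod (M * f))
    have a2 := RingHom.congr_fun c2 (t' : ZMod (M * f))
    exact a1.trans (e2.trans a2.symm)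

/-- the units with prescribed images -/
private theorem MgSb_exists {M f : ℕ} (h : Nat.Coprime M f) :
    ∃ (e1 : (ZMod M)ˣ →* (ZMod (M * f))ˣ) (e2 : (ZMod f)ˣ →* (ZMod (M * f))ˣ),
      (∀ v, ZMod.unitsMap (dvd_mul_right M f) (e1 v) = v ∧
        ZMod.unitsMap (dvd_mul_left f M) (e1 v) = 1) ∧
      (∀ u, ZMod.unitsMap (dvd_mul_right M f) (e2 u) = 1 ∧
        ZMod.unitsMap (dvd_mul_left f M) (e2 u) = u) := by
  have c1 := Subsingleton.elim ((RingHom.fst _ _).comp (ZMod.chineseRemainder h).toRingHom)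
    (ZMod.castHom (dvd_mul_right M f) (ZMod M))
  have c2 := Subsingleton.elim ((RingHom.snd _ _).comp (ZMod.chineseRemainder h).toRingHom)
    (ZMod.castHom (dvd_mul_left f M) (ZMod f))
  have key : ∀ (v : (ZMod M)ˣ) (u : (ZMod f)ˣ),
      ZMod.unitsMap (dvd_mul_right M f) (Units.map
        ((ZMod.chineseRemainder h).symm.toRingHom : _ →* _)
        ((MulEquiv.prodUnits (M := ZMod M) (N := ZMod f)).symm (v, u))) = v ∧
      ZMod.unitsMap (dvd_mul_left f M) (Units.map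
        ((ZMod.chineseRemainder h).symm.toRingHom : _ →* _)
        ((MulEquiv.prodUnits (M := ZMod M) (N := ZMod f)).symm (v, u))) = u := by
    intro v u
    constructor
    · apply Units.ext
      have a1 := RingHom.congr_fun c1
        ((ZMod.chineseRemainder h).symm ((v : ZMod M), (u : ZMod f)))
      refine a1.symm.trans ?_
      change ((ZMod.chineseRemainder h) ((ZMod.chineseRemainder h).symm _)).1 = _
      rw [RingEquiv.apply_symm_apply]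
    · apply Units.ext
      have a1 := RingHom.congr_fun c2
        ((ZMod.chineseRemainder h).symm ((v : ZMod M), (u : ZMod f)))
      refine a1.symm.trans ?_
      change ((ZMod.chineseRemainder h) ((ZMod.chineseRemainder h).symm _)).2 = _
      rw [RingEquiv.apply_symm_apply]
  refine ⟨(Units.map ((ZMod.chineseRemainder h).symm.toRingHom : _ →* _)).comp
    ((MulEquiv.prodUnits (M := ZMod M) (N := ZMod f)).symm.toMonoidHom.comp
      (MonoidHom.inl (ZMod M)ˣ (ZMod f)ˣ)),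
    (Units.map ((ZMod.chineseRemainder h).symm.toRingHom : _ →* _)).comp
    ((MulEquiv.prodUnits (M := ZMod M) (N := ZMod f)).symm.toMonoidHom.comp
      (MonoidHom.inr (ZMod M)ˣ (ZMod f)ˣ)), fun v => key v 1, fun u => key 1 u⟩

theorem exists_dec {p M m n : ℕ} [Fact p.Prime] [NeZero M] (hp2 : p ≠ 2) (hpM : p.Coprime M) (hmn : m ≤ n)
    {Ω : Type*} [Field Ω] (φ : (ZMod (M * p ^ (n + 1)))ˣ →* Ωˣ) (h1 : φ (-1) = -1)
    (h3 : ∃ h, ZMod.unitsMap (Nat.mul_dvd_mul_left M (pow_dvd_pow p (Nat.succ_le_succ hmn))) h = 1 ∧ φ h ≠ 1) :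
    ∃ k, m < k ∧ ∃ hkn : k ≤ n, ∃ (ε : Ωˣ) (χ : (ZMod (p ^ (k + 1)))ˣ →* Ωˣ) (ψ : (ZMod M)ˣ →* Ωˣ),
      Sgn ε ∧ χ (-1) = ε ∧ H5SW.Prim χ ∧ ψ (-1) = -ε ∧ ∀ t : (ZMod (M * p ^ (n + 1)))ˣ,
        φ t = ψ (ZMod.unitsMap (dvd_mul_right M (p ^ (n + 1))) t) *
          χ (ZMod.unitsMap (Dvd.dvd.mul_left (pow_dvd_pow p (Nat.succ_le_succ hkn)) M) t) := by
  have hcop : Nat.Coprime M (p ^ (n + 1)) := Nat.Coprime.pow_right _ hpM.symm
  obtain ⟨e1, e2, he1, he2⟩ := MgSb_exists hcop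
  have key : ∀ t : (ZMod (M * p ^ (n + 1)))ˣ,
      φ t = (φ.comp e1) (ZMod.unitsMap (dvd_mul_right M (p ^ (n + 1))) t) *
        (φ.comp e2) (ZMod.unitsMap (dvd_mul_left (p ^ (n + 1)) M) t) := by
    intro t
    rw [MonoidHom.comp_apply, MonoidHom.comp_apply, ← map_mul]
    congr 1
    refine MgSb_inj hcop ?_ ?_
    · rw [map_mul, (he1 _).1, (he2 _).1, mul_one]
    · rw [map_mul, (he1 _).2, (he2 _).2, one_mul]
  obtain ⟨ε, hε0⟩ : ∃ ε : Ωˣ, (φ.comp e2) (-1) = ε := ⟨_, rfl⟩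
  have hsq : ε * ε = 1 := by
    rw [← hε0, ← map_mul, neg_one_mul, neg_neg, map_one]
  have hε : Sgn ε := by
    have h5 : ((ε : Ω) - 1) * ((ε : Ω) + 1) = 0 := by
      have h6 := congrArg (fun u : Ωˣ => (u : Ω)) hsq
      simp only [Units.val_mul, Units.val_one] at h6
      linear_combination h6
    rcases mul_eq_zero.1 h5 with h6 | h6
    · left
      exact Units.ext (by rw [Units.val_one]; exact sub_eq_zero.1 h6)
    · right
      exact Units.ext (by rw [Units.val_neg, Units.val_one]; exact eq_neg_of_add_eq_zero_left h6)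
  have comp : ∀ {a b c : ℕ} (h1 : a ∣ b) (h2 : b ∣ c) (t : (ZMod c)ˣ),
      ZMod.unitsMap h1 (ZMod.unitsMap h2 t) = ZMod.unitsMap (h1.trans h2) t := by
    intro a b c h1 h2 t
    rw [← ZMod.unitsMap_comp h1 h2]
    rfl
  have hneg : ∀ {a b : ℕ} (h : a ∣ b), ZMod.unitsMap h (-1 : (ZMod b)ˣ) = -1 := by
    intro a b h
    apply Units.ext
    rw [ZMod.unitsMap_def, Units.coe_map]
    change (ZMod.castHom h (ZMod a)) (-1) = -1
    rw [map_neg, map_one]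
  have hodd : (φ.comp e1) (-1) = -ε := by
    have h := key (-1)
    rw [hneg, hneg, hε0, h1] at h
    have h5 : (φ.comp e1) (-1) = (φ.comp e1) (-1) * ε * ε := by rw [mul_assoc, hsq, mul_one]
    rw [h5, ← h, neg_one_mul]
  have hm : ∃ u, ZMod.unitsMap (pow_dvd_pow p (Nat.succ_le_succ hmn)) u = 1 ∧
      (φ.comp e2) u ≠ 1 := by
    obtain ⟨h, hh1, hh2⟩ := h3
    have hv : ZMod.unitsMap (dvd_mul_right M (p ^ (n + 1))) h = 1 := by
      have := comp (dvd_mul_right M (p ^ (m + 1)))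
        (Nat.mul_dvd_mul_left M (pow_dvd_pow p (Nat.succ_le_succ hmn))) h
      rw [hh1, map_one] at this
      exact this.symm
    refine ⟨ZMod.unitsMap (dvd_mul_left (p ^ (n + 1)) M) h, ?_, ?_⟩
    · rw [comp]
      have := comp (dvd_mul_left (p ^ (m + 1)) M)
        (Nat.mul_dvd_mul_left M (pow_dvd_pow p (Nat.succ_le_succ hmn))) h
      rw [hh1, map_one] at this
      exact this.symm
    · intro h0
      apply hh2
      rw [key h, hv, map_one, one_mul]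
      exact h0
  obtain ⟨k, hmk, hkn, χ, hχ, hev', hprim⟩ :=
    factor_levele hp2 hmn (φ.comp e2) hm
  refine ⟨k, hmk, hkn, ε, χ, φ.comp e1, hε, hev'.trans hε0, hprim, hodd, fun t => ?_⟩
  rw [key t, hχ, MonoidHom.comp_apply χ, comp]

theorem fourier {p M a n k : ℕ} [Fact p.Prime] [NeZero M] (hp2 : p ≠ 2) (hpM : p.Coprime M) (ha : a ∣ M)
    (hkn : k ≤ n) {Ω : Type*} [Field Ω] {z : Ω} (hz : IsPrimitiveRoot z (p ^ (k + 1)))
    (φ : (ZMod (M * p ^ (n + 1)))ˣ →* Ωˣ) (χ : (ZMod (p ^ (k + 1)))ˣ →* Ωˣ) (ψ : (ZMod M)ˣ →* Ωˣ)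
    {ε : Ωˣ} (hε : Sgn ε) (hev : χ (-1) = ε) (hprim : H5SW.Prim χ)
    (hodd : ∀ a : ZMod M, cf ψ (-a) = - (ε : Ω) * cf ψ a) (h0 : cf ψ 0 = 0)
    (hφ : ∀ t : (ZMod (M * p ^ (n + 1)))ˣ, φ t = ψ (ZMod.unitsMap (dvd_mul_right M (p ^ (n + 1))) t) *
      χ (ZMod.unitsMap (Dvd.dvd.mul_left (pow_dvd_pow p (Nat.succ_le_succ hkn)) M) t)) :
    H5SW.T2_g χ z 1 * Bm (M * p ^ (n + 1)) a φ =
      - (2 * ((M / a * p ^ (n + 1) : ℕ) : Ω) * H46TS.Tc (cf ψ) χ z) := by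
  have hpp : p.Prime := Fact.out
  have hf1 : 1 < p ^ (k + 1) := Nat.one_lt_pow (Nat.succ_ne_zero k) hpp.one_lt
  have : Fact (1 < p ^ (k + 1)) := ⟨hf1⟩
  have hodd' : Odd (p ^ (k + 1)) := (hpp.odd_of_ne_two hp2).pow
  have hzf : z ^ (p ^ (k + 1)) = 1 := hz.pow_eq_one
  have hdv : p ^ (k + 1) ∣ p ^ (n + 1) := pow_dvd_pow p (Nat.succ_le_succ hkn)
  rw [Bm_sum hkn φ χ ψ hprim hφ]
  have hz0 : z ≠ 0 := hz.ne_zero (pow_pos hpp.pos _).ne'
  have hw0 : ∀ b : (ZMod (p ^ (k + 1)))ˣ, z ^ (b : ZMod (p ^ (k + 1))).val ≠ 0 :=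
    fun b => pow_ne_zero _ hz0
  have hwM : ∀ b : (ZMod (p ^ (k + 1)))ˣ, (z ^ (b : ZMod (p ^ (k + 1))).val) ^ M ≠ 1 := by
    intro b h
    rw [← pow_mul, hz.pow_eq_one_iff_dvd] at h
    have hb := ZMod.val_coe_unit_coprime b
    have h1 : p ∣ (b : ZMod (p ^ (k + 1))).val * M :=
      dvd_trans (dvd_pow_self p (Nat.succ_ne_zero k)) h
    rcases (Nat.Prime.dvd_mul hpp).1 h1 with h2 | h2
    · have h3 := Nat.Coprime.coprime_dvd_right (dvd_pow_self p (Nat.succ_ne_zero k)) hb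
      exact (Nat.Prime.coprime_iff_not_dvd hpp).1 h3.symm h2
    · exact (Nat.Prime.coprime_iff_not_dvd hpp).1 hpM h2
  have hwP : ∀ b : (ZMod (p ^ (k + 1)))ˣ,
      (z ^ (b : ZMod (p ^ (k + 1))).val) ^ (p ^ (n + 1)) = 1 := by
    intro b
    obtain ⟨c, hc⟩ := hdv
    rw [← pow_mul, mul_comm, hc, mul_assoc, pow_mul, hzf, one_pow]
  have e1 : ∀ t ∈ range (M * p ^ (n + 1)), cf ψ (t : ZMod M) * ((t / a : ℕ) : Ω) *
        H5SW.T2_g χ z (t : ZMod (p ^ (k + 1))) =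
      ∑ b : (ZMod (p ^ (k + 1)))ˣ, (χ b : Ω) * (cf ψ (t : ZMod M) * ((t / a : ℕ) : Ω) *
        (z ^ (b : ZMod (p ^ (k + 1))).val) ^ t) := by
    intro t _
    unfold H5SW.T2_g
    rw [Finset.mul_sum]
    refine Finset.sum_congr rfl fun b _ => ?_
    have h1 : z ^ ((t : ZMod (p ^ (k + 1))) * b : ZMod (p ^ (k + 1))).val =
        z ^ ((b : ZMod (p ^ (k + 1))).val * t) := by
      apply H5SW.T2_pow hzf
      push_cast
      rw [ZMod.natCast_zmod_val, ZMod.natCast_zmod_val]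
      ring
    rw [h1, pow_mul]
    ring
  rw [Finset.sum_congr rfl e1, Finset.sum_comm]
  have e2 : ∀ b : (ZMod (p ^ (k + 1)))ˣ, ∑ t ∈ range (M * p ^ (n + 1)), (χ b : Ω) *
      (cf ψ (t : ZMod M) * ((t / a : ℕ) : Ω) * (z ^ (b : ZMod (p ^ (k + 1))).val) ^ t) =
      -((M / a * p ^ (n + 1) : ℕ) : Ω) * ((χ b : Ω) *
        H46TS.Fc (cf ψ) (z ^ (b : ZMod (p ^ (k + 1))).val)) := by
    intro b
    rw [← Finset.mul_sum, arith_sum ha (cf ψ) (hwP b) (hwM b)]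
    ring
  rw [Finset.sum_congr rfl (fun b _ => e2 b), ← Finset.mul_sum, ← H5SW.T2_half hodd' hf1]
  unfold H46TS.Tc
  rw [Finset.mul_sum, Finset.mul_sum, ← Finset.sum_neg_distrib]
  refine Finset.sum_congr rfl fun b _ => ?_
  have hχ : χ (-b) = ε * χ b := by rw [← neg_one_mul, map_mul, hev]
  have hneg : z ^ ((-b : (ZMod (p ^ (k + 1)))ˣ) : ZMod (p ^ (k + 1))).val =
      (z ^ (b : ZMod (p ^ (k + 1))).val)⁻¹ := by
    apply eq_inv_of_mul_eq_one_left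
    rw [← pow_add]
    have h1 : z ^ (((-b : (ZMod (p ^ (k + 1)))ˣ) : ZMod (p ^ (k + 1))).val +
        (b : ZMod (p ^ (k + 1))).val) = z ^ 0 := by
      apply H5SW.T2_pow hzf
      push_cast
      rw [ZMod.natCast_zmod_val, ZMod.natCast_zmod_val]
      ring
    rw [h1, pow_zero]
  rw [hχ, hneg, Fc_inve hodd h0 (hw0 b), Units.val_mul]
  linear_combination (-((M / a * p ^ (n + 1) : ℕ) : Ω) * ((χ b : Ω) *
    H46TS.Fc (cf ψ) (z ^ (b : ZMod (p ^ (k + 1))).val))) * hε.sq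

theorem good {l M s0 : ℕ} [Fact l.Prime] [NeZero M] (hM : 1 < M) {Ω : Type} [Field Ω] [CharP Ω l]
    {ε : Ωˣ} (hε : Sgn ε) {ψ : (ZMod M)ˣ →* Ωˣ} (hψ : ψ (-1) = -ε) (hs : ∀ t, (ψ t : Ω) ^ (l ^ s0) = ψ t) :
    Goode l s0 ε (cf ψ) := by
  have hl : l.Prime := Fact.out
  have hinv : ε⁻¹ = ε := by
    rw [inv_eq_iff_mul_eq_one]
    exact Units.ext (by rw [Units.val_mul, Units.val_one]; exact hε.sq)
  have hneg : ∀ t : (ZMod M)ˣ, ψ (-t) = - (ε * ψ t) := by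
    intro t
    rw [show -t = (-1) * t by rw [neg_one_mul], map_mul, hψ, neg_mul]
  refine ⟨?_, ?_, ?_, ?_⟩
  · intro a
    by_cases ha : IsUnit a
    · obtain ⟨u, rfl⟩ := ha
      rw [← Units.val_neg, cf_unit, cf_unit, hneg, inv_neg, Units.val_neg, mul_inv, hinv, Units.val_mul,
        neg_mul]
    · rw [cf_nonunit ψ ha, cf_nonunit ψ (by rwa [IsUnit.neg_iff]), mul_zero]
  · apply cf_nonunit
    intro h0
    have h1 : (0 : ZMod M) = 1 := isUnit_zero_iff.1 h0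
    have : Fact (1 < M) := ⟨hM⟩
    exact zero_ne_one h1
  · intro a
    by_cases ha : IsUnit a
    · obtain ⟨u, rfl⟩ := ha
      rw [cf_unit, Units.val_inv_eq_inv_val, inv_pow, hs]
    · rw [cf_nonunit ψ ha, zero_pow (pow_ne_zero _ hl.ne_zero)]
  · refine ⟨1, ?_⟩
    have h1 : cf ψ ((1 : (ZMod M)ˣ) : ZMod M) = (((ψ 1)⁻¹ : Ωˣ) : Ω) := cf_unit ψ 1
    rw [Units.val_one] at h1
    rw [h1]
    exact Units.ne_zero _

theorem exists_St_ne {l p M k0 s0 m n : ℕ} [Fact l.Prime] [Fact p.Prime] [NeZero M] (hl2 : l ≠ 2) (hp2 : p ≠ 2)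
    (hlp : l ≠ p) (hpM : p.Coprime M) (hM1 : 1 < M)
    (hs0 : ∀ (Ω : Type) [Field Ω] [CharP Ω l] (ψ : (ZMod M)ˣ →* Ωˣ) (t : (ZMod M)ˣ), (ψ t : Ω) ^ (l ^ s0) = ψ t)
    (hS : NVe l p M s0 k0) (hm : k0 ≤ m + 1) (hmn : m ≤ n)
    {Ω : Type} [Field Ω] [CharP Ω l] [IsAlgClosed Ω] (φ : (ZMod (M * p ^ (n + 1)))ˣ →* Ωˣ)
    (h1 : φ (-1) = -1)
    (h3 : ∃ h, ZMod.unitsMap (Nat.mul_dvd_mul_left M (pow_dvd_pow p (Nat.succ_le_succ hmn))) h = 1 ∧ φ h ≠ 1) :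
    ∃ c, 1 < c ∧ c < M * p ^ (n + 1) ∧ c.Coprime (M * p ^ (n + 1)) ∧ St (M * p ^ (n + 1)) c φ ≠ 0 := by
  have hl : l.Prime := Fact.out
  have hpp : p.Prime := Fact.out
  obtain ⟨e, f, hf, hM⟩ := Nat.exists_eq_pow_mul_and_not_dvd (NeZero.ne M) l hl.ne_one
  have ha0 : 0 < l ^ e := pow_pos hl.pos e
  have haM : l ^ e ∣ M := ⟨f, hM⟩
  have haN : l ^ e ∣ M * p ^ (n + 1) := Dvd.dvd.mul_right haM _
  have hMa : M / l ^ e = f := by
    rw [hM]
    exact Nat.mul_div_cancel_left f ha0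
  have hNa : M * p ^ (n + 1) / l ^ e = f * p ^ (n + 1) := by
    rw [hM, mul_assoc]
    exact Nat.mul_div_cancel_left _ ha0
  have hf0 : ((f * p ^ (n + 1) : ℕ) : Ω) ≠ 0 := by
    rw [Nat.cast_mul]
    refine mul_ne_zero ?_ (H46TS.cast_ne hlp (n + 1) Ω)
    intro h
    rw [CharP.cast_eq_zero_iff Ω l] at h
    exact hf h
  have h2ne : (2 : Ω) ≠ 0 := by
    intro h
    have h2 : ((2 : ℕ) : Ω) = 0 := by exact_mod_cast h
    rw [CharP.cast_eq_zero_iff Ω l] at h2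
    exact hl2 ((Nat.prime_dvd_prime_iff_eq hl Nat.prime_two).1 h2)
  obtain ⟨k, hmk, hkn, ε, χ, ψ, hε, hev, hprim, hψ, hφ⟩ := exists_dec hp2 hpM hmn φ h1 h3
  have hg := good hM1 hε hψ (hs0 Ω ψ)
  have : NeZero ((p ^ (k + 1) : ℕ) : Ω) := ⟨H46TS.cast_ne hlp (k + 1) Ω⟩
  obtain ⟨z, hz⟩ := HasEnoughRootsOfUnity.exists_primitiveRoot Ω (p ^ (k + 1))
  have hT := hS k (by omega) Ω z hz ε hε (cf ψ) hg χ hev hprim
  have hF := fourier hp2 hpM haM hkn hz φ χ ψ hε hev hprim hg.par hg.zero hφ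
  rw [hMa] at hF
  have hB : Bm (M * p ^ (n + 1)) (l ^ e) φ ≠ 0 := by
    intro h0
    rw [h0, mul_zero] at hF
    have h5 := neg_eq_zero.1 hF.symm
    exact mul_ne_zero (mul_ne_zero h2ne hf0) hT h5
  obtain ⟨h, hmod, hne, hc⟩ := MgSf_h hmn hM hl2 hf0 φ h1 h3
  have hcop := ZMod.val_coe_unit_coprime h
  have hN1 : 1 < M * p ^ (n + 1) := by
    have h4 : 1 < p ^ (n + 1) := Nat.one_lt_pow (Nat.succ_ne_zero n) hpp.one_lt
    have h5 : 0 < M := Nat.pos_of_ne_zero (NeZero.ne M)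
    exact lt_of_lt_of_le h4 (Nat.le_mul_of_pos_left _ h5)
  refine ⟨(h : ZMod (M * p ^ (n + 1))).val, ?_, ZMod.val_lt _, hcop, ?_⟩
  · have h0 : (h : ZMod (M * p ^ (n + 1))).val ≠ 0 := by
      intro h0
      rw [h0, Nat.coprime_zero_left] at hcop
      omega
    have h1' : (h : ZMod (M * p ^ (n + 1))).val ≠ 1 := by
      intro h1'
      apply hne
      have : h = 1 := by
        apply Units.ext
        rw [Units.val_one, ← ZMod.natCast_zmod_val (h : ZMod (M * p ^ (n + 1))), h1', Nat.cast_one]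
      rw [this, map_one]
    omega
  · intro h0
    have hst := stick_formula haN φ h hmod hne
    rw [h0, mul_zero] at hst
    exact mul_ne_zero hc hB hst.symm

variable {l p M m n : ℕ} [Fact l.Prime] [Fact p.Prime] [NeZero M] {C : Type} [Field C] [NumberField C]
  [IsCyclotomicExtension {M * p ^ (n + 1)} ℚ C]

theorem mem_T {k0 s0 : ℕ} (hl2 : l ≠ 2) (hp2 : p ≠ 2) (hlp : l ≠ p) (hpM : p.Coprime M) (hM1 : 1 < M)
    (hs0 : ∀ (Ω : Type) [Field Ω] [CharP Ω l] (ψ : (ZMod M)ˣ →* Ωˣ) (t : (ZMod M)ˣ), (ψ t : Ω) ^ (l ^ s0) = ψ t)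
    (hS : NVe l p M s0 k0) (hm : k0 ≤ m + 1) (hmn : m ≤ n)
    (hSt : Stick (M * p ^ (n + 1)) C) {T : Subgroup (ClassGroup (𝓞 C))} (hT : Stab T) {I : Ideal (𝓞 C)}
    (hI0 : I ≠ ⊥) (hIl : icl I ^ l ∈ T)
    (hH : ∏ g ∈ univ.filter (fun g : C ≃ₐ[ℚ] C => InH p M m n hmn g), icl (g • I) ∈ T)
    (hJ : ∀ g : C ≃ₐ[ℚ] C, kp (M * p ^ (n + 1)) g = -1 → icl I * icl (g • I) ∈ T) :
    icl I ∈ T := by
  by_contra hnp
  have hl : l.Prime := Fact.out
  obtain ⟨Ω, iF, iC, iA, φ, R⟩ := exists_phi (l := l) (M * p ^ (n + 1)) hT hI0 hIl hnp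
  have hlΩ : (l : Ω) = 0 := CharP.cast_eq_zero Ω l
  have hk1 : kp (M * p ^ (n + 1)) (1 : C ≃ₐ[ℚ] C) = 1 := map_one _
  have h1 : φ (-1) = -1 := by
    obtain ⟨J, hJJ⟩ : ∃ J, kp (M * p ^ (n + 1)) (C := C) J = -1 :=
      (IsCyclotomicExtension.Rat.galEquivZMod (M * p ^ (n + 1)) C).surjective (-1)
    have h := R (Pi.single J 1 + Pi.single 1 1) (by
      rw [MgEa_prod2 (fun g : C ≃ₐ[ℚ] C => icl (g • I)), pow_one, pow_one, one_smul, mul_comm]
      exact hJ J hJJ)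
    rw [MgEa_sum2 (fun g => (φ (kp (M * p ^ (n + 1)) (C := C) g) : Ω)), hJJ, hk1, map_one,
      Nat.cast_one, one_mul, one_mul, Units.val_one] at h
    apply Units.ext
    rw [Units.val_neg, Units.val_one]
    exact eq_neg_of_add_eq_zero_left h
  have h3 : ∃ h, ZMod.unitsMap (Nat.mul_dvd_mul_left M (pow_dvd_pow p (Nat.succ_le_succ hmn))) h = 1 ∧
      φ h ≠ 1 := by
    by_contra hcon
    push Not at hcon
    have h := R (fun g => if InH p M m n hmn g then 1 else 0) (by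
      have h4 : ∏ g : C ≃ₐ[ℚ] C, icl (g • I) ^ (if InH p M m n hmn g then 1 else 0) =
          ∏ g ∈ univ.filter (fun g : C ≃ₐ[ℚ] C => InH p M m n hmn g), icl (g • I) := by
        rw [Finset.prod_filter]
        apply Finset.prod_congr rfl
        intro g _
        split_ifs
        · rw [pow_one]
        · rw [pow_zero]
      rw [h4]
      exact hH)
    have h' : ((univ.filter (fun g : C ≃ₐ[ℚ] C => InH p M m n hmn g)).card : Ω) = 0 := by
      rw [← h, Finset.card_filter, Nat.cast_sum]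
      apply Finset.sum_congr rfl
      intro g _
      by_cases hg : InH p M m n hmn g
      · rw [if_pos hg, Nat.cast_one, one_mul, hcon _ hg, Units.val_one]
      · rw [if_neg hg, Nat.cast_zero, zero_mul]
    rw [card_InH hpM hmn] at h'
    exact H46TS.cast_ne hlp (n - m) Ω h'
  obtain ⟨c, hc1, hcN, hcop, hne⟩ := exists_St_ne hl2 hp2 hlp hpM hM1 hs0 hS hm hmn φ h1 h3
  apply hne
  have hpr := hSt c hc1 hcN hcop I hI0
  have hpr2 : (∏ g : C ≃ₐ[ℚ] C,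
      (g • I) ^ (c * tt (M * p ^ (n + 1)) C g⁻¹ / (M * p ^ (n + 1)))).IsPrincipal := by
    rw [← Fintype.prod_equiv (Equiv.inv (C ≃ₐ[ℚ] C))
      (fun g => (g⁻¹ • I) ^ (c * tt (M * p ^ (n + 1)) C g / (M * p ^ (n + 1))))]
    · exact hpr
    · intro g
      rw [Equiv.inv_apply, inv_inv]
  rw [isPrincipal_iff_icl _ _ (fun g _ => smul_ne_bot g hI0)] at hpr2
  have h := R (fun g => c * tt (M * p ^ (n + 1)) C g⁻¹ / (M * p ^ (n + 1))) (by
    rw [hpr2]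
    exact T.one_mem)
  rw [← h]
  unfold H78M.St
  symm
  apply Fintype.sum_equiv ((Equiv.inv (C ≃ₐ[ℚ] C)).trans
    (IsCyclotomicExtension.Rat.galEquivZMod (M * p ^ (n + 1)) C).toEquiv)
  intro g
  simp only [Equiv.trans_apply, Equiv.inv_apply, MulEquiv.toEquiv_eq_coe, EquivLike.coe_coe]
  rw [map_inv, map_inv, inv_inv, mul_comm]
  rfl

theorem noNewT {k0 s0 : ℕ} (hl2 : l ≠ 2) (hp2 : p ≠ 2) (hlp : l ≠ p) (hpM : p.Coprime M) (hM1 : 1 < M)
    (hs0 : ∀ (Ω : Type) [Field Ω] [CharP Ω l] (ψ : (ZMod M)ˣ →* Ωˣ) (t : (ZMod M)ˣ), (ψ t : Ω) ^ (l ^ s0) = ψ t)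
    (hS : NVe l p M s0 k0) (hm : k0 ≤ m + 1) (hmn : m ≤ n)
    (hSt : Stick (M * p ^ (n + 1)) C) : NoNewT l p M m n hmn C := by
  intro T hT h1 h2 h3
  rw [eq_top_iff]
  rintro c -
  obtain ⟨⟨I, hI⟩, rfl⟩ := ClassGroup.mk0_surjective c
  have hI0 : I ≠ ⊥ := nonZeroDivisors.ne_zero hI
  have h5 : icl I ∈ T := mem_T hl2 hp2 hlp hpM hM1 hs0 hS hm hmn hSt hT hI0 (h1 I hI0) (h2 I hI0)
    (fun g hg => h3 g hg I hI0)
  rw [Mc_icl hI0] at h5
  exact h5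

theorem noNewE {k0 s0 : ℕ} (hl2 : l ≠ 2) (hp2 : p ≠ 2) (hlp : l ≠ p) (hpM : p.Coprime M) (hM1 : 1 < M)
    (hs0 : ∀ (Ω : Type) [Field Ω] [CharP Ω l] (ψ : (ZMod M)ˣ →* Ωˣ) (t : (ZMod M)ˣ), (ψ t : Ω) ^ (l ^ s0) = ψ t)
    (hS : NVe l p M s0 k0) (hm : k0 ≤ m + 1) (hmn : m ≤ n)
    (hSt : Stick (M * p ^ (n + 1)) C) : NoNewE l p M m n hmn C := by
  have : IsGalois ℚ C := IsCyclotomicExtension.isGalois {M * p ^ (n + 1)} ℚ C
  have hl0 : l ≠ 0 := (Fact.out : l.Prime).ne_zero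
  intro e he hv hH hJ
  obtain ⟨y, b, I, hy, hb, hI0, hI, rfl⟩ := exists_pow_ideal (l := l) he hv
  have hyC : (y : C) ≠ 0 := RingOfIntegers.coe_ne_zero_iff.mpr hy
  have hg0 : ∀ (g : C ≃ₐ[ℚ] C) (x : C), x ≠ 0 → g x ≠ 0 := by
    intro g x hx h0
    exact hx ((map_eq_zero g).1 h0)
  have hH' : ∃ s : C, ∏ g ∈ univ.filter (fun g : C ≃ₐ[ℚ] C => InH p M m n hmn g), g (y : C) = s ^ l := by
    obtain ⟨s, hs⟩ := hH
    have hb' : ∏ g ∈ univ.filter (fun g : C ≃ₐ[ℚ] C => InH p M m n hmn g), g b ≠ 0 :=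
      Finset.prod_ne_zero_iff.2 (fun g _ => hg0 g b hb)
    refine ⟨s / ∏ g ∈ univ.filter (fun g : C ≃ₐ[ℚ] C => InH p M m n hmn g), g b, ?_⟩
    rw [div_pow, ← hs, eq_div_iff (pow_ne_zero _ hb')]
    simp only [map_mul, map_pow, Finset.prod_mul_distrib, Finset.prod_pow]
  have hJ' : ∀ g : C ≃ₐ[ℚ] C, kp (M * p ^ (n + 1)) g = -1 → ∃ s : C, (y : C) * g (y : C) = s ^ l := by
    intro g h1
    obtain ⟨s, hs⟩ := hJ g h1
    have hgb := hg0 g b hb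
    refine ⟨s / (b * g b), ?_⟩
    rw [map_mul, map_pow] at hs
    rw [div_pow, ← hs, eq_div_iff (pow_ne_zero _ (mul_ne_zero hb hgb)), mul_pow]
    ring
  have hIl : icl I ^ l = 1 := by
    rw [← Mc_pow hI0, Eb_icl (pow_ne_zero l hI0), hI]
    exact ⟨⟨y, rfl⟩⟩
  have hprin : I.IsPrincipal := by
    rw [← Eb_icl hI0, ← Subgroup.mem_bot]
    refine mem_T hl2 hp2 hlp hpM hM1 hs0 hS hm hmn hSt Eb_stab hI0 ?_ ?_ ?_
    · rw [Subgroup.mem_bot]
      exact hIl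
    · rw [Subgroup.mem_bot]
      obtain ⟨s, hs⟩ := hH'
      have h1 := Eb_rel hl0 hI0 hI (fun g => if InH p M m n hmn g then 1 else 0) (s := s) (by
        rw [← hs, Finset.prod_filter]
        apply Finset.prod_congr rfl
        intro g _
        split_ifs
        · rw [pow_one]
        · rw [pow_zero])
      rw [← h1, Finset.prod_filter]
      apply Finset.prod_congr rfl
      intro g _
      split_ifs
      · rw [pow_one]
      · rw [pow_zero]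
    · intro g hg
      rw [Subgroup.mem_bot]
      obtain ⟨s, hs⟩ := hJ' g hg
      have h1 := Eb_two hl0 hI0 hI g 1 (s := s) (by rw [pow_one, mul_comm, hs])
      rw [pow_one] at h1
      rw [mul_comm, h1]
  obtain ⟨β, hβ⟩ := hprin.principal
  have hβ' : I = Ideal.span {β} := hβ
  have hβ0 : β ≠ 0 := by
    rintro rfl
    apply hI0
    rw [hβ']
    exact Ideal.span_singleton_eq_bot.2 rfl
  have hβC : (β : C) ≠ 0 := RingOfIntegers.coe_ne_zero_iff.mpr hβ0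
  rw [hβ', Ideal.span_singleton_pow, Ideal.span_singleton_eq_span_singleton] at hI
  obtain ⟨u, hu⟩ := hI
  have huC : (y : C) = (β : C) ^ l * ((u : 𝓞 C) : C) := by
    have := congrArg (algebraMap (𝓞 C) C) hu
    rw [map_mul, map_pow] at this
    exact this.symm
  obtain ⟨s, hs⟩ := unit_pow hl2 hlp hpM hmn (u := u) (C := C) (by
    intro g h1
    obtain ⟨s, hs⟩ := hJ' g h1
    have hgb := hg0 g _ hβC
    refine ⟨s / (β * g β), ?_⟩
    rw [huC, map_mul, map_pow] at hs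
    rw [div_pow, ← hs, eq_div_iff (pow_ne_zero _ (mul_ne_zero hβC hgb)), mul_pow]
    ring) (by
    obtain ⟨s, hs⟩ := hH'
    have hb' : ∏ g ∈ univ.filter (fun g : C ≃ₐ[ℚ] C => InH p M m n hmn g), g (β : C) ≠ 0 :=
      Finset.prod_ne_zero_iff.2 (fun g _ => hg0 g _ hβC)
    refine ⟨s / ∏ g ∈ univ.filter (fun g : C ≃ₐ[ℚ] C => InH p M m n hmn g), g (β : C), ?_⟩
    rw [div_pow, ← hs, eq_div_iff (pow_ne_zero _ hb'), huC]
    simp only [map_mul, map_pow, Finset.prod_mul_distrib, Finset.prod_pow]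
    ring)
  refine ⟨s * β * b, ?_⟩
  rw [huC, hs, mul_pow, mul_pow]
  ring

theorem exists_level (l p M : ℕ) [Fact l.Prime] [Fact p.Prime] [NeZero M] (hl2 : l ≠ 2) (hp2 : p ≠ 2)
    (hlp : l ≠ p) (hpM : p.Coprime M) (hM1 : 1 < M) :
    ∃ k0 : ℕ, ∀ (m n : ℕ) (hmn : m ≤ n), k0 ≤ m + 1 → ∀ (C : Type) [Field C] [NumberField C]
      [IsCyclotomicExtension {M * p ^ (n + 1)} ℚ C], NoNewE l p M m n hmn C ∧ NoNewT l p M m n hmn C := by
  obtain ⟨s0, hs1, hs0⟩ := exists_s0 l M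
  obtain ⟨k0, hk0⟩ := sinnotte (l := l) (p := p) (M := M) (s0 := s0) hp2 hl2 hlp hpM hs1
  refine ⟨k0, fun m n hmn hm C _ _ _ => ⟨?_, ?_⟩⟩
  · exact noNewE hl2 hp2 hlp hpM hM1 hs0 hk0 hm hmn (stick _ C)
  · exact noNewT hl2 hp2 hlp hpM hM1 hs0 hk0 hm hmn (stick _ C)

end H78H
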